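import Pool.Agent.CYD.Main

/-!
MP_b8d6bb_co, Q1: pinned distances of planar point sets all of whose differences lie in a
similar copy of the ring of integers of the `m`-th cyclotomic field (placed in the plane by
any complex embedding), `m ≥ 3`, in terms of the number of points and of a bound `M` for the
absolute norms of the differences.
-/

set_option autoImplicit false

namespace Pool.Agent.Results.MP_b8d6bb_co.CyclotomicPinned

open NumberField

theorem result (m : ℕ) (hm : 3 ≤ m) :
    ∃ c : ℝ, 0 < c ∧ ∀ (φ : CyclotomicField m ℚ →+* ℂ) (t : ℂ) (M : ℝ) (P : Finset ℂ),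
      2 ≤ P.card →
      (∀ x ∈ P, ∀ y ∈ P, ∃ z : 𝓞 (CyclotomicField m ℚ), x - y = t * φ z ∧
        |((Algebra.norm ℚ (z : CyclotomicField m ℚ) : ℚ) : ℝ)| ≤ M) →
      c * (P.card : ℝ) ^ 2 /
          √(Real.log (2 + M / P.card) * Real.log (2 * P.card + M)) ≤
        ∑ x ∈ P, ((((P.erase x).image (fun y => dist x y)).card : ℕ) : ℝ) := by
  refine Pool.Agent.CYD.final_cyclotomic m hm ?_
  intro hCM
  have := Pool.Agent.CYD.cyclotomicField_rat m
  exact Pool.Agent.CYD.main2 (CyclotomicField m ℚ) m hm

end Pool.Agent.Results.MP_b8d6bb_co.CyclotomicPinned
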