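import Pool.Agent.DL.Main

/-!
# Distinct distances of subsets of lattices

Partial answer to Q1: for every lattice in the plane there is `c > 0` such that every set `S` of
`n ≥ 2` points of a similar copy `x₀ + t (ℤ b₁ + ℤ b₂)` of it, of diameter at most `t Δ`, determines at
least `c n / √(log (2 + Δ²/n) · log (2 n + Δ²))` distinct distances.  For dense subsets (`Δ² ≤ K n`)
this is the bound `c n / √(log n)` of Erdős's conjecture.
-/

set_option autoImplicit false

namespace Pool.Agent.Results.MP_b8d6bb_co.LatticeSets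

theorem result (b₁ b₂ : EuclideanSpace ℝ (Fin 2)) (hb : LinearIndependent ℝ ![b₁, b₂]) :
    ∃ c : ℝ, 0 < c ∧ ∀ (S : Finset (EuclideanSpace ℝ (Fin 2))) (x₀ : EuclideanSpace ℝ (Fin 2))
      (t Δ : ℝ), 2 ≤ S.card → 0 < t →
      (∀ x ∈ S, ∃ m n : ℤ, x = x₀ + t • ((m : ℝ) • b₁ + (n : ℝ) • b₂)) →
      (∀ x ∈ S, ∀ y ∈ S, dist x y ≤ t * Δ) →
      c * S.card / √(Real.log (2 + Δ ^ 2 / S.card) * Real.log (2 * S.card + Δ ^ 2)) ≤
        ((S.offDiag.image (fun pq => dist pq.1 pq.2)).card : ℝ) :=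
  Pool.Agent.DL.lattice_distances b₁ b₂ hb

end Pool.Agent.Results.MP_b8d6bb_co.LatticeSets
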