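import Pool.Agent.SDD.Main

/-!
# Pinned distances to sets of small doubling

Partial answer to Q1, for every pin.  There is an absolute `c > 0` such that for every finite set `P`
of at least two points of the plane with `|P + P| ≤ K |P|` or `|P - P| ≤ K |P|`, every point `x` of the
plane and every subset `S` of `P` with at least two points, the number of distinct distances from `x`
to the points of `S` other than `x` is at least `c |S|² / (K⁴ |P| log |P|)`.  For `S = P` this is
`c n / (K⁴ log n)`.
-/

set_option autoImplicit false

open scoped Pointwise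

namespace Pool.Agent.Results.MP_b8d6bb_co.SmallDoubling

theorem result : ∃ c : ℝ, 0 < c ∧ ∀ (P : Finset ℂ), 2 ≤ P.card → ∀ K : ℝ,
    (((P + P).card : ℝ) ≤ K * P.card ∨ ((P - P).card : ℝ) ≤ K * P.card) → ∀ x : ℂ,
      ∀ S ⊆ P, 2 ≤ S.card → c * (S.card : ℝ) ^ 2 / (K ^ 4 * P.card * Real.log P.card) ≤
        (((S.erase x).image (fun y => dist x y)).card : ℝ) :=
  Pool.Agent.SDD.pinned

end Pool.Agent.Results.MP_b8d6bb_co.SmallDoubling
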